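import Mathlib

/-!
# Product intersection sets: every set of positive integers containing 1 occurs

For a semigroup `S`, a family `A : Q → Set S` and `h ≥ 1` we compare the `h`-fold product set of
the intersection with the intersection of the `h`-fold product sets. The sets `H A` of those `h`
for which the two agree are shown to be exactly the sets of positive integers containing `1`.
-/

universe u v

namespace Pool.Agent.Results.MP_1fd3e3_co.AllSubsets

/-- The `h`-fold product set `A ^ h = {a₁ a₂ ⋯ a_h : aᵢ ∈ A}` in a semigroup (the value at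
`h = 0` is junk). -/
def powSet {S : Type u} [Semigroup S] (A : Set S) : ℕ → Set S
  | 0 => ∅
  | 1 => A
  | n + 2 => {x | ∃ y ∈ powSet A (n + 1), ∃ a ∈ A, x = y * a}

/-- The product intersection set of a family of subsets. -/
def H {S : Type u} [Semigroup S] {Q : Type v} (A : Q → Set S) : Set ℕ :=
  {h | 1 ≤ h ∧ powSet (⋂ q, A q) h = ⋂ q, powSet (A q) h}

/-- All product intersection sets of families indexed by `Q` with infinitely many members. -/
def HQ (Q : Type v) : Set (Set ℕ) :=
  {X | ∃ (S : Type u) (_ : Semigroup S) (A : Q → Set S), (Set.range A).Infinite ∧ X = H A}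

/-- All product intersection sets of asymptotically strictly decreasing sequences. -/
def HStar : Set (Set ℕ) :=
  {X | ∃ (S : Type u) (_ : Semigroup S) (A : ℕ → Set S),
    (∀ q, A (q + 1) ⊆ A q) ∧ {q | A q ≠ A (q + 1)}.Infinite ∧ X = H A}

/-- The underlying type of the semigroup of the construction. -/
inductive Elt : Type u
  | zero : Elt
  | el : ℕ → ℕ → ℕ → Elt

namespace Elt

/-- The product. -/
def mul : Elt.{u} → Elt.{u} → Elt.{u}
  | zero, _ => zero
  | el _ _ _, zero => zero
  | el h k m, el h' k' m' =>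
      if h = h' ∧ k + k' < h then el h (k + k') (min m m')
      else if h = h' ∧ k + k' = h then el h h 0 else zero

instance : Mul Elt.{u} := ⟨mul⟩

theorem zero_mul' (x : Elt.{u}) : zero * x = zero := by
  cases x <;> rfl

theorem mul_zero' (x : Elt.{u}) : x * zero = zero := by
  cases x <;> rfl

theorem el_mul (h k m h' k' m' : ℕ) : (el h k m : Elt.{u}) * el h' k' m' =
    if h = h' ∧ k + k' < h then el h (k + k') (min m m')
      else if h = h' ∧ k + k' = h then el h h 0 else zero := rfl

theorem mul_assoc' (x y z : Elt.{u}) : x * y * z = x * (y * z) := by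
  rcases x with _ | ⟨h, k, m⟩
  · simp only [zero_mul']
  rcases y with _ | ⟨h', k', m'⟩
  · simp only [zero_mul', mul_zero']
  rcases z with _ | ⟨h'', k'', m''⟩
  · simp only [mul_zero']
  by_cases e1 : h = h'
  · subst e1
    by_cases e2 : h = h''
    · subst e2
      rw [el_mul, el_mul]
      simp only [true_and]
      by_cases c1 : k + k' < h
      · rw [if_pos c1, el_mul]
        simp only [true_and]
        by_cases c2 : k' + k'' < h
        · rw [if_pos c2, el_mul]
          simp only [true_and]
          rw [← add_assoc, min_assoc]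
        · rw [if_neg c2]
          by_cases c3 : k' + k'' = h
          · rw [if_pos c3, el_mul]
            simp only [true_and]
            by_cases c4 : k = 0
            · subst c4
              rw [if_neg (by omega), if_pos (by omega), if_neg (by omega), if_pos (by omega)]
            · rw [if_neg (by omega), if_neg (by omega), if_neg (by omega), if_neg (by omega)]
          · rw [if_neg c3, mul_zero', if_neg (by omega), if_neg (by omega)]
      · rw [if_neg c1]
        by_cases c3 : k + k' = h
        · rw [if_pos c3, el_mul]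
          simp only [true_and]
          by_cases c4 : k'' = 0
          · subst c4
            rw [if_neg (by omega), if_pos (by omega)]
            by_cases c5 : k' < h
            · rw [if_pos (by omega), el_mul]
              simp only [true_and]
              rw [if_neg (by omega), if_pos (by omega)]
            · rw [if_neg (by omega), if_pos (by omega), el_mul]
              simp only [true_and]
              rw [if_neg (by omega), if_pos (by omega)]
          · rw [if_neg (by omega), if_neg (by omega)]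
            by_cases c5 : k' + k'' < h
            · rw [if_pos c5, el_mul]
              simp only [true_and]
              rw [if_neg (by omega), if_neg (by omega)]
            · rw [if_neg c5]
              by_cases c6 : k' + k'' = h
              · rw [if_pos c6, el_mul]
                simp only [true_and]
                rw [if_neg (by omega), if_neg (by omega)]
              · rw [if_neg c6, mul_zero']
        · rw [if_neg c3, zero_mul']
          by_cases c5 : k' + k'' < h
          · rw [if_pos c5, el_mul]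
            simp only [true_and]
            rw [if_neg (by omega), if_neg (by omega)]
          · rw [if_neg c5]
            by_cases c6 : k' + k'' = h
            · rw [if_pos c6, el_mul]
              simp only [true_and]
              rw [if_neg (by omega), if_neg (by omega)]
            · rw [if_neg c6, mul_zero']
    · -- third block different
      have h1 : (el h k' m' : Elt.{u}) * el h'' k'' m'' = zero := by
        rw [el_mul]; simp [e2]
      rw [h1, mul_zero', el_mul]
      simp only [true_and]
      split_ifs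
      · rw [el_mul]; simp [e2]
      · rw [el_mul]; simp [e2]
      · rw [zero_mul']
  · have h1 : (el h k m : Elt.{u}) * el h' k' m' = zero := by
      rw [el_mul]; simp [e1]
    rw [h1, zero_mul', el_mul]
    split_ifs
    · rw [el_mul]; simp [e1]
    · rw [el_mul]; simp [e1]
    · rw [mul_zero']

instance : Semigroup Elt.{u} where
  mul_assoc := mul_assoc'

end Elt

open Elt

/-- The sets of the construction. -/
def Aset (X : Set ℕ) (q : ℕ) : Set Elt.{u} :=
  {x | x = zero ∨ ∃ h r, h ∉ X ∧ q ≤ r ∧ x = el h 1 r}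

theorem zero_mem_pow (A : Set Elt.{u}) (hA : zero ∈ A) (h : ℕ) (hh : 1 ≤ h) :
    zero ∈ powSet A h := by
  induction h, hh using Nat.le_induction with
  | base => exact hA
  | succ n hn ih =>
    obtain ⟨m, rfl⟩ : ∃ m, n = m + 1 := ⟨n - 1, by omega⟩
    exact ⟨zero, ih, zero, hA, (zero_mul' zero).symm⟩

theorem pow_zero_singleton (h : ℕ) (hh : 1 ≤ h) : powSet ({zero} : Set Elt.{u}) h = {zero} := by
  induction h, hh using Nat.le_induction with
  | base => rfl
  | succ n hn ih =>
    obtain ⟨m, rfl⟩ : ∃ m, n = m + 1 := ⟨n - 1, by omega⟩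
    ext x
    constructor
    · rintro ⟨y, hy, a, ha, rfl⟩
      rw [Set.mem_singleton_iff] at ha
      rw [ha, mul_zero']
      exact rfl
    · intro hx
      rw [Set.mem_singleton_iff] at hx
      subst hx
      exact zero_mem_pow {zero} rfl (m + 1 + 1) (by omega)

theorem iInter_Aset (X : Set ℕ) : ⋂ q, Aset.{u} X q = {zero} := by
  ext x
  rw [Set.mem_iInter, Set.mem_singleton_iff]
  constructor
  · intro hx
    rcases x with _ | ⟨h, k, r⟩
    · rfl
    · exfalso
      rcases hx (r + 1) with h1 | ⟨h', r', -, h2, h3⟩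
      · cases h1
      · injection h3 with e1 e2 e3
        omega
  · rintro rfl q
    exact Or.inl rfl

/-- The elements of the product sets of the construction. -/
theorem mem_pow (X : Set ℕ) (q k : ℕ) (hk : 1 ≤ k) (x : Elt.{u})
    (hx : x ∈ powSet (Aset X q) k) :
    x = zero ∨ (∃ h r, h ∉ X ∧ (k < h ∨ k = 1) ∧ q ≤ r ∧ x = el h k r) ∨
      (k ∉ X ∧ x = el k k 0) := by
  induction k, hk using Nat.le_induction generalizing x with
  | base =>
    rcases hx with rfl | ⟨h, r, h1, h2, rfl⟩
    · exact Or.inl rfl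
    · exact Or.inr (Or.inl ⟨h, r, h1, Or.inr rfl, h2, rfl⟩)
  | succ n hn ih =>
    obtain ⟨m, rfl⟩ : ∃ m, n = m + 1 := ⟨n - 1, by omega⟩
    obtain ⟨y, hy, a, ha, rfl⟩ := hx
    rcases ha with rfl | ⟨h', r', h1', h2', rfl⟩
    · exact Or.inl (mul_zero' y)
    rcases ih y hy with rfl | ⟨h, r, h1, h2, h3, rfl⟩ | ⟨h1, rfl⟩
    · exact Or.inl (zero_mul' _)
    · rw [el_mul]
      split_ifs with c1 c2
      · exact Or.inr (Or.inl ⟨h, _, h1, Or.inl c1.2, le_min h3 h2', rfl⟩)
      · obtain ⟨c2, c3⟩ := c2
        subst c3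
        exact Or.inr (Or.inr ⟨h1, rfl⟩)
      · exact Or.inl rfl
    · rw [el_mul, if_neg (by omega), if_neg (by omega)]
      exact Or.inl rfl

theorem el_mem_pow (X : Set ℕ) (q h k : ℕ) (hh : h ∉ X) (hk : 1 ≤ k) (hkh : k < h) :
    (el h k q : Elt.{u}) ∈ powSet (Aset X q) k := by
  induction k, hk using Nat.le_induction with
  | base => exact Or.inr ⟨h, q, hh, le_rfl, rfl⟩
  | succ n hn ih =>
    obtain ⟨m, rfl⟩ : ∃ m, n = m + 1 := ⟨n - 1, by omega⟩
    refine ⟨el h (m + 1) q, ih (by omega), el h 1 q, Or.inr ⟨h, q, hh, le_rfl, rfl⟩, ?_⟩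
    rw [el_mul, if_pos ⟨rfl, hkh⟩, min_self]

theorem top_mem_pow (X : Set ℕ) (q h : ℕ) (hh : h ∉ X) (h2 : 2 ≤ h) :
    (el h h 0 : Elt.{u}) ∈ powSet (Aset X q) h := by
  obtain ⟨m, rfl⟩ : ∃ m, h = m + 2 := ⟨h - 2, by omega⟩
  refine ⟨el (m + 2) (m + 1) q, el_mem_pow X q (m + 2) (m + 1) hh (by omega) (by omega),
    el (m + 2) 1 q, Or.inr ⟨m + 2, q, hh, le_rfl, rfl⟩, ?_⟩
  rw [el_mul, if_neg (by omega), if_pos ⟨rfl, rfl⟩]

theorem H_comp (X : Set ℕ) (hX1 : 1 ∈ X) (hX0 : 0 ∉ X) {Q : Type v} (f : Q → ℕ)
    (hf : Function.Surjective f) : H (fun q => Aset.{u} X (f q)) = X := by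
  have hI : ⋂ q, Aset.{u} X (f q) = {zero} := by
    rw [← iInter_Aset X]
    exact hf.iInter_comp (fun q => Aset.{u} X q)
  ext k
  unfold H
  rw [Set.mem_ofPred_eq, hI]
  constructor
  · rintro ⟨hk, he⟩
    rw [pow_zero_singleton k hk] at he
    by_contra hkX
    have hk2 : 2 ≤ k := by
      rcases Nat.lt_or_ge k 2 with h | h
      · have : k = 1 := by omega
        subst this
        exact absurd hX1 hkX
      · exact h
    have hmem : (el k k 0 : Elt.{u}) ∈ ⋂ q, powSet (Aset X (f q)) k :=
      Set.mem_iInter.2 fun q => top_mem_pow X (f q) k hkX hk2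
    rw [← he, Set.mem_singleton_iff] at hmem
    cases hmem
  · intro hk
    have hk1 : 1 ≤ k := by
      rcases Nat.eq_zero_or_pos k with h | h
      · subst h; exact absurd hk hX0
      · exact h
    refine ⟨hk1, ?_⟩
    rw [pow_zero_singleton k hk1]
    ext x
    rw [Set.mem_singleton_iff, Set.mem_iInter]
    constructor
    · rintro rfl q
      exact zero_mem_pow _ (Or.inl rfl) k hk1
    · intro hx
      rcases x with _ | ⟨h, j, r⟩
      · rfl
      · exfalso
        obtain ⟨q, hq⟩ := hf (r + 1)
        rcases mem_pow X (f q) k hk1 _ (hx q) with h1 | ⟨h', r', -, -, h2, h3⟩ | ⟨h1, -⟩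
        · cases h1
        · injection h3 with e1 e2 e3
          omega
        · exact h1 hk

theorem Aset_ne (X : Set ℕ) (hX0 : 0 ∉ X) {p q : ℕ} (hpq : p < q) :
    Aset.{u} X p ≠ Aset X q := by
  intro h
  have h1 : (el 0 1 p : Elt.{u}) ∈ Aset X p := Or.inr ⟨0, p, hX0, le_rfl, rfl⟩
  rw [h] at h1
  rcases h1 with h1 | ⟨h', r', -, h2, h3⟩
  · cases h1
  · injection h3 with e1 e2 e3
    omega

theorem Aset_injective (X : Set ℕ) (hX0 : 0 ∉ X) : Function.Injective (Aset.{u} X) := by
  intro p q h
  rcases lt_trichotomy p q with h1 | h1 | h1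
  · exact absurd h (Aset_ne X hX0 h1)
  · exact h1
  · exact absurd h.symm (Aset_ne X hX0 h1)

theorem one_mem_H {S : Type u} [Semigroup S] {Q : Type v} (A : Q → Set S) :
    1 ∈ H A ∧ 0 ∉ H A :=
  ⟨⟨le_rfl, rfl⟩, fun h => absurd h.1 (by omega)⟩

theorem HQ_eq (Q : Type v) [Infinite Q] : HQ.{u, v} Q = {X | 1 ∈ X ∧ 0 ∉ X} := by
  ext X
  constructor
  · rintro ⟨S, iS, A, -, rfl⟩
    exact one_mem_H A
  · rintro ⟨hX1, hX0⟩
    obtain ⟨e, he⟩ : ∃ e : ℕ → Q, Function.Injective e := ⟨_, (Infinite.natEmbedding Q).injective⟩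
    have hf : Function.Surjective (Function.invFun e) := Function.invFun_surjective he
    refine ⟨Elt.{u}, inferInstance, fun q => Aset X (Function.invFun e q), ?_,
      (H_comp X hX1 hX0 _ hf).symm⟩
    have h1 : Set.range (fun q => Aset.{u} X (Function.invFun e q)) = Set.range (Aset.{u} X) :=
      hf.range_comp (Aset.{u} X)
    rw [h1]
    exact Set.infinite_range_of_injective (Aset_injective X hX0)

theorem HStar_eq : HStar.{u} = {X | 1 ∈ X ∧ 0 ∉ X} := by
  ext X
  constructor
  · rintro ⟨S, iS, A, -, -, rfl⟩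
    exact one_mem_H A
  · rintro ⟨hX1, hX0⟩
    refine ⟨Elt.{u}, inferInstance, fun q => Aset X q, ?_, ?_,
      (H_comp X hX1 hX0 id Function.surjective_id).symm⟩
    · rintro q x (h | ⟨h, r, h1, h2, h3⟩)
      · exact Or.inl h
      · exact Or.inr ⟨h, r, h1, by omega, h3⟩
    · have : {q | Aset.{u} X q ≠ Aset X (q + 1)} = Set.univ :=
        Set.eq_univ_of_forall fun q => Aset_ne X hX0 (Nat.lt_succ_self q)
      rw [this]
      exact Set.infinite_univ

/-- For every infinite index set `Q` the collection `HQ Q`, and also `HStar`, consists of all sets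
of positive integers containing `1`; so both are closed under unions. -/
theorem result :
    (∀ (Q : Type v) [Infinite Q],
      HQ.{u, v} Q = {X | 1 ∈ X ∧ 0 ∉ X} ∧
      ∀ X ∈ HQ.{u, v} Q, ∀ Y ∈ HQ.{u, v} Q, X ∪ Y ∈ HQ.{u, v} Q) ∧
    HStar.{u} = {X | 1 ∈ X ∧ 0 ∉ X} ∧
    ∀ X ∈ HStar.{u}, ∀ Y ∈ HStar.{u}, X ∪ Y ∈ HStar.{u} := by
  have key : ∀ X Y : Set ℕ, (1 ∈ X ∧ 0 ∉ X) → (1 ∈ Y ∧ 0 ∉ Y) → (1 ∈ X ∪ Y ∧ 0 ∉ X ∪ Y) :=
    fun X Y hX hY => ⟨Or.inl hX.1, fun h => h.elim hX.2 hY.2⟩
  refine ⟨fun Q _ => ⟨HQ_eq Q, ?_⟩, HStar_eq, ?_⟩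
  · rw [HQ_eq Q]
    exact fun X hX Y hY => key X Y hX hY
  · rw [HStar_eq]
    exact fun X hX Y hY => key X Y hX hY

end Pool.Agent.Results.MP_1fd3e3_co.AllSubsets
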